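import Mathlib

open Finset

namespace Pool.Agent.Results.MP_55034c_pr.Path

section
variable {R : Type} [Field R] {V : Type} [Fintype V] [DecidableEq V]

/-- Probability that the chain started from `π` follows the path `ω(0),…,ω(t)`. -/
def pathProb (π : V → R) (P : Matrix V V R) {t : ℕ} (ω : Fin (t + 1) → V) : R :=
  π (ω 0) * ∏ r : Fin t, P (ω r.castSucc) (ω r.succ)

/-- `P_π(|R(t)| ≥ y)`. -/
def single (π : V → R) (P : Matrix V V R) (t y : ℕ) : R :=
  ∑ ω : Fin (t + 1) → V, if y ≤ (univ.image ω).card then pathProb π P ω else 0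

/-- `P_{π^k}(|⋃ R_i(t_i)| ≥ y)` for independent chains. -/
def multi (π : V → R) (P : Matrix V V R) {k : ℕ} (t : Fin k → ℕ) (y : ℕ) : R :=
  ∑ ω : ∀ i, Fin (t i + 1) → V,
    if y ≤ (univ.biUnion fun i => univ.image (ω i)).card then ∏ i, pathProb π P (ω i) else 0
end

def πq : Fin 5 → ℚ := ![93 / 100, 2 / 100, 2 / 100, 2 / 100, 1 / 100]
def Pq : Matrix (Fin 5) (Fin 5) ℚ :=
  !![92 / 93, 1 / 93, 0, 0, 0; 1 / 2, 0, 1 / 2, 0, 0; 0, 1 / 2, 0, 1 / 2, 0;
    0, 0, 1 / 2, 0, 1 / 2; 0, 0, 0, 1, 0]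

lemma sum_cons {n : ℕ} (f : (Fin (n + 1) → Fin 5) → ℚ) :
    ∑ a, f a = ∑ x, ∑ a : Fin n → Fin 5, f (Matrix.vecCons x a) := by
  rw [← Fintype.sum_prod_type']
  exact (Fintype.sum_equiv (Fin.consEquiv fun _ => Fin 5) _ _ fun _ => rfl).symm

lemma key : (∑ a : Fin 3 → Fin 5, ∑ b : Fin 3 → Fin 5,
    if 5 ≤ (univ.image a ∪ univ.image b).card then pathProb πq Pq a * pathProb πq Pq b else 0) <
    single πq Pq 4 5 := by
  simp only [single, sum_cons, Fintype.sum_unique]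
  decide +kernel

lemma prim : ∀ x y, 0 < (Pq ^ 8) x y := by decide +kernel

lemma cast_path {t : ℕ} (ω : Fin (t + 1) → Fin 5) :
    pathProb (fun x => (πq x : ℝ)) (Pq.map (Rat.cast : ℚ → ℝ)) ω = (pathProb πq Pq ω : ℚ) := by
  simp [pathProb]

theorem result : ∃ (m : ℕ) (π : Fin m → ℝ) (P : Matrix (Fin m) (Fin m) ℝ),
    (∀ x y, 0 ≤ P x y) ∧ (∀ x, ∑ y, P x y = 1) ∧ (∀ x, 0 < π x) ∧ ∑ x, π x = 1 ∧
    (∀ x y, π x * P x y = π y * P y x) ∧ (∃ n, ∀ x y, 0 < (P ^ n) x y) ∧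
    ∃ (k : ℕ) (t : Fin k → ℕ) (y : ℕ), (∀ i, 0 < t i) ∧ 0 < y ∧
      multi π P t y < single π P (∑ i, t i) y := by
  refine ⟨5, fun x => πq x, Pq.map Rat.cast, fun x y => ?_, fun x => ?_, fun x => ?_, ?_,
    fun x y => ?_, ⟨8, fun x y => ?_⟩, 2, fun _ => 2, 5, fun _ => two_pos, by norm_num, ?_⟩
  · exact Rat.cast_nonneg.2 (by revert x y; decide +kernel)
  · simp only [Matrix.map_apply]
    exact_mod_cast (by revert x; decide +kernel : ∑ y, Pq x y = 1)
  · exact Rat.cast_pos.2 (by revert x; decide +kernel)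
  · beta_reduce
    exact_mod_cast (by decide +kernel : ∑ x, πq x = 1)
  · simp only [Matrix.map_apply]
    exact_mod_cast (by revert x y; decide +kernel : πq x * Pq x y = πq y * Pq y x)
  · have := (Rat.castHom ℝ).mapMatrix.map_pow Pq 8
    rw [show Pq.map Rat.cast = (Rat.castHom ℝ).mapMatrix Pq from rfl, ← this]
    exact Rat.cast_pos.2 (prim x y)
  · have h := (Rat.cast_lt (K := ℝ)).2 key
    refine lt_of_eq_of_lt ?_ (h.trans_eq ?_)
    · rw [multi, ← Fintype.sum_prod_type']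
      push_cast
      refine Fintype.sum_equiv (piFinTwoEquiv fun _ => Fin 3 → Fin 5) _ _ fun ω => ?_
      have : (univ.biUnion fun i => univ.image (ω i)) = univ.image (ω 0) ∪ univ.image (ω 1) := by
        ext v; simp [Fin.exists_fin_two]
      simp only [this, Fin.prod_univ_two, cast_path, piFinTwoEquiv_apply]
      split_ifs <;> simp
    · change _ = single _ _ 4 5
      simp only [single, cast_path]
      push_cast
      refine sum_congr rfl fun ω _ => ?_
      split_ifs <;> simp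

end Pool.Agent.Results.MP_55034c_pr.Path
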